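import Mathlib

/-!
Sets with distinct consecutive sums have logarithmic density zero.

Fix `m`.  For `m ≤ k < 2m` take the blocks of at most `2^(2m-k-1)` consecutive elements of `A`, all
of them in `(2^k, 2^(k+1)]`.  All these blocks (over all `k`) have different sums, and the sums are at
most `4^m`.  Counting the blocks shows that the sum over `m ≤ k < 2m` of
`|A ∩ (2^k, 2^(k+1)]| / 2^k` is at most `16/3`.
-/

set_option autoImplicit false
open Filter Topology

namespace Pool.Agent.Results.MP_28bef0_nt.LogarithmicDensity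

/-- the position where a strictly increasing sequence passes `x` -/
theorem exists_cut (a : ℕ → ℕ) (ha : StrictMono a) (x : ℕ) : ∃ c, ∀ i, i < c ↔ a i ≤ x := by
  classical
  have hex : ∃ i, x < a i := ⟨x + 1, lt_of_lt_of_le (Nat.lt_succ_self x) (ha.id_le (x + 1))⟩
  refine ⟨Nat.find hex, fun i => ⟨fun h => ?_, fun h => ?_⟩⟩
  · have := Nat.find_min hex h
    omega
  · by_contra hcon
    have h1 : a (Nat.find hex) ≤ a i := ha.monotone (by omega)
    have h2 := Nat.find_spec hex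
    omega

/-- the pairs of indices of a block of at most `M` terms inside `[s, t)` -/
def P (s t M : ℕ) : Finset (ℕ × ℕ) :=
  (Finset.Ico s t ×ˢ Finset.Ico s t).filter fun p => p.1 ≤ p.2 ∧ p.2 < p.1 + M

theorem P_card (s t M : ℕ) (h : s + 2 * M ≤ t) : (t - s) * M ≤ 2 * (P s t M).card := by
  classical
  have h1 : (Finset.Ico s (t - M + 1) ×ˢ Finset.range M).card ≤ (P s t M).card := by
    refine Finset.card_le_card_of_injOn (fun q => (q.1, q.1 + q.2)) ?_ ?_
    · rintro ⟨u, j⟩ hq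
      rw [Finset.mem_coe, Finset.mem_product, Finset.mem_Ico, Finset.mem_range] at hq
      simp only at hq
      rw [Finset.mem_coe, P, Finset.mem_filter, Finset.mem_product, Finset.mem_Ico, Finset.mem_Ico]
      simp only
      omega
    · rintro ⟨u, j⟩ _ ⟨u', j'⟩ _ h
      simp only [Prod.mk.injEq] at h ⊢
      omega
  rw [Finset.card_product, Nat.card_Ico, Finset.card_range] at h1
  have h2 : t - s ≤ 2 * (t - M + 1 - s) := by omega
  calc (t - s) * M ≤ (2 * (t - M + 1 - s)) * M := Nat.mul_le_mul_right _ h2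
    _ = 2 * ((t - M + 1 - s) * M) := by ring
    _ ≤ 2 * (P s t M).card := Nat.mul_le_mul_left _ h1

theorem P_sum (a : ℕ → ℕ) (hpos : ∀ n, 0 < a n)
    (hd : ∀ i j k l : ℕ, i < j → k < l →
        ∑ m ∈ Finset.Ico i j, a m = ∑ m ∈ Finset.Ico k l, a m → i = k ∧ j = l)
    (c : ℕ → ℕ) (hc : ∀ x i, i < c x ↔ a i ≤ x) (m : ℕ) :
    ∑ k ∈ Finset.Ico m (2 * m), (P (c (2 ^ k)) (c (2 ^ (k + 1))) (2 ^ (2 * m - k - 1))).card
      ≤ 4 ^ m := by
  classical
  rw [← Finset.card_sigma]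
  have h0 : (Finset.Icc 1 (4 ^ m)).card = 4 ^ m := by rw [Nat.card_Icc, Nat.add_sub_cancel]
  rw [← h0]
  refine Finset.card_le_card_of_injOn
    (fun q : (Σ _ : ℕ, ℕ × ℕ) => ∑ i ∈ Finset.Ico q.2.1 (q.2.2 + 1), a i) ?_ ?_
  · rintro ⟨k, u, v⟩ hq
    rw [Finset.mem_coe, Finset.mem_sigma, P, Finset.mem_filter, Finset.mem_product,
      Finset.mem_Ico, Finset.mem_Ico, Finset.mem_Ico] at hq
    simp only at hq
    obtain ⟨⟨hk1, hk2⟩, ⟨⟨hu1, hu2⟩, ⟨hv1, hv2⟩⟩, huv, hvM⟩ := hq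
    rw [Finset.mem_coe, Finset.mem_Icc]
    simp only
    constructor
    · have : a u ≤ ∑ i ∈ Finset.Ico u (v + 1), a i :=
        Finset.single_le_sum (f := a) (fun i _ => Nat.zero_le _)
          (Finset.mem_Ico.2 ⟨le_refl _, by omega⟩)
      have := hpos u
      omega
    · calc ∑ i ∈ Finset.Ico u (v + 1), a i ≤ ∑ i ∈ Finset.Ico u (v + 1), 2 ^ (k + 1) := by
            refine Finset.sum_le_sum fun i hi => ?_
            rw [Finset.mem_Ico] at hi
            exact (hc _ i).1 (by omega)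
        _ = (v + 1 - u) * 2 ^ (k + 1) := by
            rw [Finset.sum_const, Nat.card_Ico, smul_eq_mul]
        _ ≤ 2 ^ (2 * m - k - 1) * 2 ^ (k + 1) := Nat.mul_le_mul_right _ (by omega)
        _ = 4 ^ m := by
            rw [← pow_add, show (4 : ℕ) = 2 ^ 2 by norm_num, ← pow_mul]
            congr 1
            omega
  · rintro ⟨k, u, v⟩ hq ⟨k', u', v'⟩ hq' h
    rw [Finset.mem_coe, Finset.mem_sigma, P, Finset.mem_filter, Finset.mem_product,
      Finset.mem_Ico, Finset.mem_Ico, Finset.mem_Ico] at hq hq'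
    simp only at hq hq' h
    obtain ⟨⟨hk1, hk2⟩, ⟨⟨hu1, hu2⟩, ⟨hv1, hv2⟩⟩, huv, hvM⟩ := hq
    obtain ⟨⟨hk1', hk2'⟩, ⟨⟨hu1', hu2'⟩, ⟨hv1', hv2'⟩⟩, huv', hvM'⟩ := hq'
    obtain ⟨e1, e2⟩ := hd u (v + 1) u' (v' + 1) (by omega) (by omega) h
    have e3 : v = v' := by omega
    subst e1 e3
    have f1 : a u ≤ 2 ^ (k + 1) := (hc _ u).1 hu2
    have f2 : ¬ a u ≤ 2 ^ k := fun h => by have := (hc _ u).2 h; omega
    have f3 : a u ≤ 2 ^ (k' + 1) := (hc _ u).1 hu2'
    have f4 : ¬ a u ≤ 2 ^ k' := fun h => by have := (hc _ u).2 h; omega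
    have g1 : k < k' + 1 := by
      by_contra hcon
      have : 2 ^ (k' + 1) ≤ 2 ^ k := Nat.pow_le_pow_right (by norm_num) (by omega)
      omega
    have g2 : k' < k + 1 := by
      by_contra hcon
      have : 2 ^ (k + 1) ≤ 2 ^ k' := Nat.pow_le_pow_right (by norm_num) (by omega)
      omega
    have e4 : k = k' := by omega
    subst e4
    rfl

theorem geom (m n : ℕ) (h : m ≤ n) :
    ∑ k ∈ Finset.Ico m n, (4 : ℝ) ^ m / 4 ^ k ≤ 4 / 3 - 4 / 3 * (4 ^ m / 4 ^ n) := by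
  induction n, h using Nat.le_induction with
  | base => simp
  | succ n hn ih =>
    rw [Finset.sum_Ico_succ_top hn]
    have h4 : (0 : ℝ) < 4 ^ n := by positivity
    have : (4 : ℝ) ^ m / 4 ^ (n + 1) = (4 ^ m / 4 ^ n) / 4 := by
      rw [pow_succ]; field_simp
    rw [this]
    linarith

/-- the main inequality -/
theorem main1 (a : ℕ → ℕ) (hpos : ∀ n, 0 < a n)
    (hd : ∀ i j k l : ℕ, i < j → k < l →
        ∑ m ∈ Finset.Ico i j, a m = ∑ m ∈ Finset.Ico k l, a m → i = k ∧ j = l)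
    (c : ℕ → ℕ) (hc : ∀ x i, i < c x ↔ a i ≤ x) (m : ℕ) :
    ∑ k ∈ Finset.Ico m (2 * m), ((c (2 ^ (k + 1)) : ℝ) - c (2 ^ k)) / 2 ^ k ≤ 16 / 3 := by
  have hmono : Monotone c := by
    intro x y hxy
    by_contra hcon
    have h1 := (hc x (c y)).1 (by omega)
    have h2 := (hc y (c y)).2 (by omega)
    omega
  have key : ∀ k ∈ Finset.Ico m (2 * m), ((c (2 ^ (k + 1)) : ℝ) - c (2 ^ k)) / 2 ^ k ≤
      4 / 4 ^ m * ((P (c (2 ^ k)) (c (2 ^ (k + 1))) (2 ^ (2 * m - k - 1))).card : ℝ)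
        + 4 ^ m / 4 ^ k := by
    intro k hk
    rw [Finset.mem_Ico] at hk
    have hle : c (2 ^ k) ≤ c (2 ^ (k + 1)) := hmono (Nat.pow_le_pow_right (by norm_num) (by omega))
    obtain ⟨w, hw⟩ : ∃ w, w = 2 * m - k - 1 := ⟨_, rfl⟩
    have hp : (2 : ℝ) ^ w * 2 ^ k * 2 = 4 ^ m := by
      rw [show (4 : ℝ) = 2 ^ 2 by norm_num, ← pow_mul, ← pow_add, ← pow_succ]
      congr 1
      omega
    have hk0 : (0 : ℝ) < 2 ^ k := by positivity
    have hw0 : (0 : ℝ) < 2 ^ w := by positivity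
    have h4k : (4 : ℝ) ^ k = 2 ^ k * 2 ^ k := by
      rw [← mul_pow]; norm_num
    rw [← hw]
    by_cases h : c (2 ^ k) + 2 * 2 ^ w ≤ c (2 ^ (k + 1))
    · have h1 := P_card _ _ _ h
      have h2 : ((c (2 ^ (k + 1)) : ℝ) - c (2 ^ k)) * 2 ^ w ≤
          2 * ((P (c (2 ^ k)) (c (2 ^ (k + 1))) (2 ^ w)).card : ℝ) := by
        have := (Nat.cast_le (α := ℝ)).2 h1
        push_cast [Nat.cast_sub hle] at this
        exact this
      have h3 : ((c (2 ^ (k + 1)) : ℝ) - c (2 ^ k)) / 2 ^ k ≤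
          4 / 4 ^ m * ((P (c (2 ^ k)) (c (2 ^ (k + 1))) (2 ^ w)).card : ℝ) := by
        rw [← hp, div_mul_eq_mul_div, div_le_div_iff₀ hk0 (by positivity)]
        nlinarith [mul_le_mul_of_nonneg_right h2 hk0.le]
      have h4 : (0 : ℝ) ≤ 4 ^ m / 4 ^ k := by positivity
      linarith
    · have h1 : (c (2 ^ (k + 1)) : ℝ) - c (2 ^ k) ≤ 2 * 2 ^ w := by
        have h2 : c (2 ^ (k + 1)) ≤ c (2 ^ k) + 2 * 2 ^ w := by omega
        have := (Nat.cast_le (α := ℝ)).2 h2
        push_cast at this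
        linarith
      have h3 : ((c (2 ^ (k + 1)) : ℝ) - c (2 ^ k)) / 2 ^ k ≤ 4 ^ m / 4 ^ k := by
        rw [← hp, h4k, div_le_div_iff₀ hk0 (by positivity)]
        nlinarith [mul_le_mul_of_nonneg_right h1 (mul_pos hk0 hk0).le]
      have h4 : (0 : ℝ) ≤
          4 / 4 ^ m * ((P (c (2 ^ k)) (c (2 ^ (k + 1))) (2 ^ w)).card : ℝ) := by positivity
      linarith
  have h5 : ∑ k ∈ Finset.Ico m (2 * m),
      ((P (c (2 ^ k)) (c (2 ^ (k + 1))) (2 ^ (2 * m - k - 1))).card : ℝ) ≤ 4 ^ m := by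
    have := (Nat.cast_le (α := ℝ)).2 (P_sum a hpos hd c hc m)
    push_cast at this
    exact this
  have h6 := geom m (2 * m) (by omega)
  have h7 : (0 : ℝ) ≤ 4 ^ m / 4 ^ (2 * m) := by positivity
  calc _ ≤ _ := Finset.sum_le_sum key
    _ = 4 / 4 ^ m * ∑ k ∈ Finset.Ico m (2 * m),
          ((P (c (2 ^ k)) (c (2 ^ (k + 1))) (2 ^ (2 * m - k - 1))).card : ℝ) +
          ∑ k ∈ Finset.Ico m (2 * m), (4 : ℝ) ^ m / 4 ^ k := by
        rw [Finset.sum_add_distrib, Finset.mul_sum]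
    _ ≤ 4 / 4 ^ m * 4 ^ m + 4 / 3 := by
        have h8 : (0 : ℝ) ≤ 4 / 4 ^ m := by positivity
        have := mul_le_mul_of_nonneg_left h5 h8
        linarith
    _ = 16 / 3 := by
        have : (4 : ℝ) ^ m ≠ 0 := by positivity
        field_simp
        norm_num

theorem tele (c : ℕ → ℕ) (m n : ℕ) (h : m ≤ n) :
    ∑ k ∈ Finset.Ico m n, (c (2 ^ k) : ℝ) / 2 ^ k + 2 * ((c (2 ^ n) : ℝ) / 2 ^ n) =
      ∑ k ∈ Finset.Ico m n, ((c (2 ^ (k + 1)) : ℝ) - c (2 ^ k)) / 2 ^ k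
        + 2 * ((c (2 ^ m) : ℝ) / 2 ^ m) := by
  induction n, h using Nat.le_induction with
  | base => simp
  | succ n hn ih =>
    rw [Finset.sum_Ico_succ_top hn, Finset.sum_Ico_succ_top hn]
    have h2 : (2 : ℝ) ^ n ≠ 0 := by positivity
    have e : 2 * ((c (2 ^ (n + 1)) : ℝ) / 2 ^ (n + 1)) = (c (2 ^ (n + 1)) : ℝ) / 2 ^ n := by
      rw [pow_succ (2 : ℝ) n]; field_simp
    rw [e, sub_div]
    linarith

theorem c_le (a : ℕ → ℕ) (ha : StrictMono a) (hpos : ∀ n, 0 < a n)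
    (c : ℕ → ℕ) (hc : ∀ x i, i < c x ↔ a i ≤ x) (x : ℕ) : c x ≤ x := by
  by_contra hcon
  have h1 := (hc x x).1 (by omega)
  have h2 : ∀ i, i + 1 ≤ a i := by
    intro i
    induction i with
    | zero => exact hpos 0
    | succ i ih =>
      have : a i < a (i + 1) := ha (Nat.lt_succ_self i)
      omega
  have := h2 x
  omega

theorem window (a : ℕ → ℕ) (ha : StrictMono a) (hpos : ∀ n, 0 < a n)
    (hd : ∀ i j k l : ℕ, i < j → k < l →
        ∑ m ∈ Finset.Ico i j, a m = ∑ m ∈ Finset.Ico k l, a m → i = k ∧ j = l)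
    (c : ℕ → ℕ) (hc : ∀ x i, i < c x ↔ a i ≤ x) (m : ℕ) :
    ∑ k ∈ Finset.Ico m (2 * m), (c (2 ^ k) : ℝ) / 2 ^ k ≤ 22 / 3 := by
  have h1 := tele c m (2 * m) (by omega)
  have h2 := main1 a hpos hd c hc m
  have h3 : (c (2 ^ m) : ℝ) / 2 ^ m ≤ 1 := by
    rw [div_le_one (by positivity)]
    exact_mod_cast c_le a ha hpos c hc (2 ^ m)
  have h4 : (0 : ℝ) ≤ (c (2 ^ (2 * m)) : ℝ) / 2 ^ (2 * m) := by positivity
  linarith

theorem T_bound (a : ℕ → ℕ) (ha : StrictMono a) (hpos : ∀ n, 0 < a n)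
    (hd : ∀ i j k l : ℕ, i < j → k < l →
        ∑ m ∈ Finset.Ico i j, a m = ∑ m ∈ Finset.Ico k l, a m → i = k ∧ j = l)
    (c : ℕ → ℕ) (hc : ∀ x i, i < c x ↔ a i ≤ x) (R : ℕ) :
    ∑ k ∈ Finset.range (2 ^ R), (c (2 ^ k) : ℝ) / 2 ^ k ≤ 1 + 22 / 3 * R := by
  induction R with
  | zero =>
    have h := c_le a ha hpos c hc 1
    have h' : (c 1 : ℝ) ≤ 1 := by exact_mod_cast h
    simpa using h'
  | succ R ih =>
    have h1 : 2 ^ R ≤ 2 * 2 ^ R := by omega
    rw [pow_succ, mul_comm, ← Finset.sum_range_add_sum_Ico _ h1]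
    have h2 := window a ha hpos hd c hc (2 ^ R)
    push_cast
    linarith

theorem harm (E : ℕ → Prop) [DecidablePred E] (K : ℕ) :
    ∑ n ∈ (Finset.Ico 1 (2 ^ K)).filter E, (1 : ℝ) / n ≤
      ∑ k ∈ Finset.range K, (((Finset.Ico (2 ^ k) (2 ^ (k + 1))).filter E).card : ℝ) / 2 ^ k := by
  induction K with
  | zero => simp
  | succ K ih =>
    rw [Finset.sum_range_succ]
    have h1 : 1 ≤ 2 ^ K := Nat.one_le_two_pow
    have h2 : 2 ^ K ≤ 2 ^ (K + 1) := Nat.pow_le_pow_right (by norm_num) (by omega)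
    have e : ∑ n ∈ (Finset.Ico 1 (2 ^ (K + 1))).filter E, (1 : ℝ) / n =
        ∑ n ∈ (Finset.Ico 1 (2 ^ K)).filter E, (1 : ℝ) / n +
          ∑ n ∈ (Finset.Ico (2 ^ K) (2 ^ (K + 1))).filter E, (1 : ℝ) / n := by
      rw [Finset.sum_filter, Finset.sum_filter, Finset.sum_filter,
        Finset.sum_Ico_consecutive _ h1 h2]
    rw [e]
    have h3 : ∑ n ∈ (Finset.Ico (2 ^ K) (2 ^ (K + 1))).filter E, (1 : ℝ) / n ≤
        (((Finset.Ico (2 ^ K) (2 ^ (K + 1))).filter E).card : ℝ) / 2 ^ K := by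
      calc _ ≤ ∑ n ∈ (Finset.Ico (2 ^ K) (2 ^ (K + 1))).filter E, (1 : ℝ) / 2 ^ K := by
            refine Finset.sum_le_sum fun n hn => ?_
            rw [Finset.mem_filter, Finset.mem_Ico] at hn
            have : (2 : ℝ) ^ K ≤ n := by exact_mod_cast hn.1.1
            exact one_div_le_one_div_of_le (by positivity) this
        _ = _ := by rw [Finset.sum_const, nsmul_eq_mul]; ring
    linarith

theorem gen (a : ℕ → ℕ) (ha : StrictMono a) (hpos : ∀ n, 0 < a n)
    (hd : ∀ i j k l : ℕ, i < j → k < l →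
        ∑ m ∈ Finset.Ico i j, a m = ∑ m ∈ Finset.Ico k l, a m → i = k ∧ j = l)
    (c : ℕ → ℕ) (hc : ∀ x i, i < c x ↔ a i ≤ x) (E : ℕ → Prop) [DecidablePred E] (C : ℝ)
    (hC : 0 ≤ C)
    (hE : ∀ k : ℕ, (((Finset.Ico (2 ^ k) (2 ^ (k + 1))).filter E).card : ℝ) ≤
      C * (c (2 ^ (k + 1)) : ℝ)) (x : ℕ) :
    ∑ n ∈ (Finset.Icc 1 x).filter E, (1 : ℝ) / n ≤
      2 * C * (1 + 22 / 3 * ((Nat.log 2 (Nat.log 2 x + 2) : ℝ) + 1)) := by
  classical
  obtain ⟨K, hK⟩ : ∃ K, K = Nat.log 2 x + 1 := ⟨_, rfl⟩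
  obtain ⟨R, hR⟩ : ∃ R, R = Nat.log 2 (Nat.log 2 x + 2) + 1 := ⟨_, rfl⟩
  have hx : x < 2 ^ K := by rw [hK]; exact Nat.lt_pow_succ_log_self (by norm_num) x
  have hKR : K + 1 ≤ 2 ^ R := by
    rw [hR, hK]
    exact (Nat.lt_pow_succ_log_self (by norm_num) (Nat.log 2 x + 2)).le
  have h1 : ∑ n ∈ (Finset.Icc 1 x).filter E, (1 : ℝ) / n ≤
      ∑ n ∈ (Finset.Ico 1 (2 ^ K)).filter E, (1 : ℝ) / n := by
    refine Finset.sum_le_sum_of_subset_of_nonneg ?_ fun n _ _ => by positivity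
    intro n hn
    rw [Finset.mem_filter, Finset.mem_Icc] at hn
    rw [Finset.mem_filter, Finset.mem_Ico]
    exact ⟨⟨hn.1.1, by omega⟩, hn.2⟩
  have h2 := harm E K
  have h3 : ∑ k ∈ Finset.range K,
      (((Finset.Ico (2 ^ k) (2 ^ (k + 1))).filter E).card : ℝ) / 2 ^ k ≤
      2 * C * ∑ k ∈ Finset.range K, (c (2 ^ (k + 1)) : ℝ) / 2 ^ (k + 1) := by
    rw [Finset.mul_sum]
    refine Finset.sum_le_sum fun k _ => ?_
    have hk0 : (0 : ℝ) < 2 ^ k := by positivity
    calc (((Finset.Ico (2 ^ k) (2 ^ (k + 1))).filter E).card : ℝ) / 2 ^ k ≤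
          C * (c (2 ^ (k + 1)) : ℝ) / 2 ^ k := by
          exact div_le_div_of_nonneg_right (hE k) hk0.le
      _ = 2 * C * ((c (2 ^ (k + 1)) : ℝ) / 2 ^ (k + 1)) := by
          rw [pow_succ (2 : ℝ) k]; field_simp
  have h4 : ∑ k ∈ Finset.range K, (c (2 ^ (k + 1)) : ℝ) / 2 ^ (k + 1) ≤
      ∑ k ∈ Finset.range (K + 1), (c (2 ^ k) : ℝ) / 2 ^ k := by
    rw [Finset.sum_range_succ']
    have : (0 : ℝ) ≤ (c (2 ^ 0) : ℝ) / 2 ^ 0 := by positivity
    linarith
  have h5 : ∑ k ∈ Finset.range (K + 1), (c (2 ^ k) : ℝ) / 2 ^ k ≤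
      ∑ k ∈ Finset.range (2 ^ R), (c (2 ^ k) : ℝ) / 2 ^ k := by
    refine Finset.sum_le_sum_of_subset_of_nonneg ?_ fun n _ _ => by positivity
    exact Finset.range_subset_range.2 hKR
  have h6 := T_bound a ha hpos hd c hc R
  have h7 : (R : ℝ) = (Nat.log 2 (Nat.log 2 x + 2) : ℝ) + 1 := by rw [hR]; push_cast; ring
  rw [h7] at h6
  have h8 := mul_le_mul_of_nonneg_left (h4.trans (h5.trans h6)) (show (0 : ℝ) ≤ 2 * C by linarith)
  linarith

theorem lim_zero : Tendsto (fun x : ℕ =>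
    (1 + 22 / 3 * ((Nat.log 2 (Nat.log 2 x + 2) : ℝ) + 1)) / Real.log x) atTop (𝓝 0) := by
  have hl2 : 0 < Real.log 2 := Real.log_pos (by norm_num)
  have hA : (fun u : ℝ => 1 + 22 / 3 * (Real.log u / Real.log 2 + 1)) =o[atTop] (fun u : ℝ => u) := by
    have e : (fun u : ℝ => 1 + 22 / 3 * (Real.log u / Real.log 2 + 1)) =
        fun u : ℝ => (22 / 3 / Real.log 2) * Real.log u + (1 + 22 / 3) := by
      funext u
      field_simp
      ring
    rw [e]
    exact (Real.isLittleO_log_id_atTop.const_mul_left _).add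
      (Asymptotics.isLittleO_const_id_atTop _)
  have hB : (fun u : ℝ => u) =O[atTop] (fun u : ℝ => (u - 2) * Real.log 2) := by
    refine Asymptotics.IsBigO.of_bound (2 / Real.log 2) ?_
    filter_upwards [eventually_ge_atTop (4 : ℝ)] with u hu
    rw [Real.norm_of_nonneg (by linarith), Real.norm_of_nonneg (by nlinarith)]
    have : 2 / Real.log 2 * ((u - 2) * Real.log 2) = 2 * (u - 2) := by field_simp
    rw [this]
    linarith
  have hC := (hA.trans_isBigO hB).tendsto_div_nhds_zero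
  have hD : Tendsto (fun x : ℕ => Real.log x / Real.log 2 + 2) atTop atTop := by
    refine tendsto_atTop_add_const_right _ _ ?_
    exact (Real.tendsto_log_atTop.comp tendsto_natCast_atTop_atTop).atTop_div_const hl2
  have hE := hC.comp hD
  refine squeeze_zero' ?_ ?_ hE
  · filter_upwards [eventually_ge_atTop 1] with x hx
    have : 0 ≤ Real.log x := Real.log_nonneg (by exact_mod_cast hx)
    positivity
  · filter_upwards [eventually_ge_atTop 2] with x hx
    have hx0 : (1 : ℝ) < x := by exact_mod_cast (show 1 < x by omega)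
    have hlx : 0 < Real.log x := Real.log_pos hx0
    simp only [Function.comp]
    have e1 : (Real.log x / Real.log 2 + 2 - 2) * Real.log 2 = Real.log x := by
      field_simp
      ring
    rw [e1]
    refine div_le_div_of_nonneg_right ?_ hlx.le
    have h1 : (Nat.log 2 (Nat.log 2 x + 2) : ℝ) ≤ Real.logb 2 ((Nat.log 2 x + 2 : ℕ) : ℝ) := by
      exact_mod_cast Real.natLog_le_logb (Nat.log 2 x + 2) 2
    have h2 : (Nat.log 2 x : ℝ) ≤ Real.logb 2 x := by
      exact_mod_cast Real.natLog_le_logb x 2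
    have h3 : Real.logb 2 ((Nat.log 2 x + 2 : ℕ) : ℝ) ≤
        Real.log (Real.log x / Real.log 2 + 2) / Real.log 2 := by
      unfold Real.logb
      refine div_le_div_of_nonneg_right ?_ hl2.le
      refine Real.log_le_log (by positivity) ?_
      push_cast
      unfold Real.logb at h2
      linarith
    linarith

open Classical in
/-- the number of elements of `A` in `[1, x]` -/
noncomputable def cnt (A : Set ℕ) (x : ℕ) : ℕ := ((Finset.Icc 1 x).filter (· ∈ A)).card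

open Classical in
/-- the sum of `1/n` over the elements `n` of `A` in `[1, x]` -/
noncomputable def hsum (A : Set ℕ) (x : ℕ) : ℝ := ∑ n ∈ (Finset.Icc 1 x).filter (· ∈ A), (1 : ℝ) / n

theorem cnt_eq (a : ℕ → ℕ) (ha : StrictMono a) (hpos : ∀ n, 0 < a n)
    (c : ℕ → ℕ) (hc : ∀ x i, i < c x ↔ a i ≤ x) (x : ℕ) : cnt (Set.range a) x = c x := by
  classical
  unfold cnt
  have e : (Finset.Icc 1 x).filter (· ∈ Set.range a) = (Finset.range (c x)).image a := by
    ext n
    rw [Finset.mem_filter, Finset.mem_Icc, Finset.mem_image]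
    constructor
    · rintro ⟨⟨_, h2⟩, i, rfl⟩
      exact ⟨i, Finset.mem_range.2 ((hc x i).2 h2), rfl⟩
    · rintro ⟨i, hi, rfl⟩
      exact ⟨⟨hpos i, (hc x i).1 (Finset.mem_range.1 hi)⟩, i, rfl⟩
  rw [e, Finset.card_image_of_injective _ ha.injective, Finset.card_range]

theorem Tw_bound (a : ℕ → ℕ) (ha : StrictMono a) (hpos : ∀ n, 0 < a n)
    (hd : ∀ i j k l : ℕ, i < j → k < l →
        ∑ m ∈ Finset.Ico i j, a m = ∑ m ∈ Finset.Ico k l, a m → i = k ∧ j = l)
    (c : ℕ → ℕ) (hc : ∀ x i, i < c x ↔ a i ≤ x) (R : ℕ) :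
    ∑ k ∈ Finset.range (2 ^ R), (k : ℝ) * ((c (2 ^ k) : ℝ) / 2 ^ k) ≤ 22 / 3 * 2 ^ (R + 1) := by
  induction R with
  | zero => simp
  | succ R ih =>
    have h1 : 2 ^ R ≤ 2 * 2 ^ R := by omega
    have h2 := window a ha hpos hd c hc (2 ^ R)
    have h3 : ∑ k ∈ Finset.Ico ((2 : ℕ) ^ R) (2 * 2 ^ R), (k : ℝ) * ((c (2 ^ k) : ℝ) / 2 ^ k) ≤
        2 * 2 ^ R * (22 / 3) := by
      calc _ ≤ ∑ k ∈ Finset.Ico ((2 : ℕ) ^ R) (2 * 2 ^ R),
            ((2 : ℝ) * 2 ^ R) * ((c (2 ^ k) : ℝ) / 2 ^ k) := by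
            refine Finset.sum_le_sum fun k hk => ?_
            rw [Finset.mem_Ico] at hk
            have h4 : (k : ℝ) ≤ 2 * 2 ^ R := by exact_mod_cast hk.2.le
            exact mul_le_mul_of_nonneg_right h4 (by positivity)
        _ = 2 * 2 ^ R * ∑ k ∈ Finset.Ico ((2 : ℕ) ^ R) (2 * 2 ^ R), (c (2 ^ k) : ℝ) / 2 ^ k := by
            rw [Finset.mul_sum]
        _ ≤ _ := mul_le_mul_of_nonneg_left h2 (by positivity)
    have e : (2 : ℕ) ^ (R + 1) = 2 * 2 ^ R := by rw [pow_succ, mul_comm]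
    have e' : (2 : ℝ) ^ (R + 1 + 1) = 2 * 2 * 2 ^ R := by rw [pow_succ, pow_succ]; ring
    have e'' : (2 : ℝ) ^ (R + 1) = 2 * 2 ^ R := by rw [pow_succ, mul_comm]
    rw [e, ← Finset.sum_range_add_sum_Ico _ h1, e']
    rw [e''] at ih
    linarith

/-- the `N` with `A(N) > C N / log N` have upper logarithmic density at most `176 / (C log 2)` -/
theorem exc (a : ℕ → ℕ) (ha : StrictMono a) (hpos : ∀ n, 0 < a n)
    (hd : ∀ i j k l : ℕ, i < j → k < l →
        ∑ m ∈ Finset.Ico i j, a m = ∑ m ∈ Finset.Ico k l, a m → i = k ∧ j = l)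
    (c : ℕ → ℕ) (hc : ∀ x i, i < c x ↔ a i ≤ x) (C : ℝ) (hC : 0 < C) (x : ℕ) (hx2 : 2 ≤ x) :
    hsum {n : ℕ | 2 ≤ n ∧ C * (n / Real.log n) < (c n : ℝ)} x ≤
      176 / (C * Real.log 2) * Real.log x := by
  classical
  have hmono : Monotone c := by
    intro x y hxy
    by_contra hcon
    have h1 := (hc x (c y)).1 (by omega)
    have h2 := (hc y (c y)).2 (by omega)
    omega
  obtain ⟨E, hE⟩ : ∃ E : Set ℕ, E = {n : ℕ | 2 ≤ n ∧ C * (n / Real.log n) < (c n : ℝ)} := ⟨_, rfl⟩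
  have hmem : ∀ n, n ∈ E ↔ 2 ≤ n ∧ C * (n / Real.log n) < (c n : ℝ) := by
    intro n
    rw [hE]
    exact Iff.rfl
  rw [← hE]
  obtain ⟨K, hK⟩ : ∃ K, K = Nat.log 2 x + 1 := ⟨_, rfl⟩
  obtain ⟨R, hR⟩ : ∃ R, R = Nat.log 2 (K + 1) + 1 := ⟨_, rfl⟩
  have hx : x < 2 ^ K := by rw [hK]; exact Nat.lt_pow_succ_log_self (by norm_num) x
  have hKR : K + 1 ≤ 2 ^ R := by
    rw [hR]
    exact (Nat.lt_pow_succ_log_self (by norm_num) (K + 1)).le
  have hRK : 2 ^ (R + 1) ≤ 4 * (K + 1) := by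
    have h := Nat.pow_log_le_self 2 (show K + 1 ≠ 0 by omega)
    have e : 2 ^ (R + 1) = 4 * 2 ^ (Nat.log 2 (K + 1)) := by
      rw [hR, pow_succ, pow_succ]; ring
    omega
  have h1 : hsum E x ≤ ∑ n ∈ (Finset.Ico 1 (2 ^ K)).filter (· ∈ E), (1 : ℝ) / n := by
    unfold hsum
    refine Finset.sum_le_sum_of_subset_of_nonneg ?_ fun n _ _ => by positivity
    intro n hn
    rw [Finset.mem_filter, Finset.mem_Icc] at hn
    rw [Finset.mem_filter, Finset.mem_Ico]
    exact ⟨⟨hn.1.1, by omega⟩, hn.2⟩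
  have h2 := harm (· ∈ E) K
  have h3 : ∑ k ∈ Finset.range K,
      (((Finset.Ico (2 ^ k) (2 ^ (k + 1))).filter (· ∈ E)).card : ℝ) / 2 ^ k ≤
      2 / C * ∑ k ∈ Finset.range K, ((k + 1 : ℕ) : ℝ) * ((c (2 ^ (k + 1)) : ℝ) / 2 ^ (k + 1)) := by
    rw [Finset.mul_sum]
    refine Finset.sum_le_sum fun k _ => ?_
    have hk0 : (0 : ℝ) < 2 ^ k := by positivity
    by_cases hemp : ((Finset.Ico (2 ^ k) (2 ^ (k + 1))).filter (· ∈ E)).card = 0
    · rw [hemp]
      rw [Nat.cast_zero, zero_div]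
      positivity
    · obtain ⟨n, hn⟩ := Finset.card_pos.1 (Nat.pos_of_ne_zero hemp)
      rw [Finset.mem_filter, Finset.mem_Ico, hmem] at hn
      obtain ⟨⟨hn1, hn2⟩, hn4, hn3⟩ := hn
      have g1 : ((Finset.Ico (2 ^ k) (2 ^ (k + 1))).filter (· ∈ E)).card ≤ 2 ^ k := by
        refine (Finset.card_filter_le _ _).trans ?_
        rw [Nat.card_Ico, pow_succ]
        omega
      have g1' : (((Finset.Ico (2 ^ k) (2 ^ (k + 1))).filter (· ∈ E)).card : ℝ) ≤ 2 ^ k := by
        exact_mod_cast g1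
      have g2 : (c n : ℝ) ≤ c (2 ^ (k + 1)) := by exact_mod_cast hmono hn2.le
      have g3 : (2 : ℝ) ^ k ≤ n := by exact_mod_cast hn1
      have hn1' : (1 : ℝ) < n := by exact_mod_cast (show 1 < n by omega)
      have g4 : 0 < Real.log n := Real.log_pos hn1'
      have g5 : Real.log n ≤ k + 1 := by
        have q1 : (n : ℝ) ≤ 2 ^ (k + 1) := by exact_mod_cast hn2.le
        have q2 : Real.log n ≤ Real.log (2 ^ (k + 1)) := Real.log_le_log (by linarith) q1
        rw [Real.log_pow] at q2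
        have q3 : Real.log 2 ≤ 1 := by
          have := Real.log_two_lt_d9
          linarith
        have q4 : ((k + 1 : ℕ) : ℝ) * Real.log 2 ≤ ((k + 1 : ℕ) : ℝ) * 1 :=
          mul_le_mul_of_nonneg_left q3 (by positivity)
        push_cast at q2 q4
        linarith
      have g6 : (2 : ℝ) ^ k / (k + 1) ≤ n / Real.log n :=
        div_le_div₀ (by linarith) g3 g4 g5
      have g7 : C * ((2 : ℝ) ^ k / (k + 1)) ≤ c (2 ^ (k + 1)) := by
        have := mul_le_mul_of_nonneg_left g6 hC.le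
        linarith
      have hk1 : (0 : ℝ) < (k : ℝ) + 1 := by positivity
      have g8 : (((Finset.Ico (2 ^ k) (2 ^ (k + 1))).filter (· ∈ E)).card : ℝ) / 2 ^ k ≤ 1 := by
        rw [div_le_one hk0]
        exact g1'
      refine g8.trans ?_
      push_cast
      have g9 : C * 2 ^ k ≤ (c (2 ^ (k + 1)) : ℝ) * (k + 1) := by
        rw [← mul_div_assoc, div_le_iff₀ hk1] at g7
        exact g7
      have e : 2 / C * (((k : ℝ) + 1) * ((c (2 ^ (k + 1)) : ℝ) / 2 ^ (k + 1))) =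
          ((c (2 ^ (k + 1)) : ℝ) * (k + 1)) / (C * 2 ^ k) := by
        rw [pow_succ (2 : ℝ) k]; field_simp
      rw [e, one_le_div (by positivity)]
      exact g9
  have h4 : ∑ k ∈ Finset.range K, ((k + 1 : ℕ) : ℝ) * ((c (2 ^ (k + 1)) : ℝ) / 2 ^ (k + 1)) ≤
      ∑ k ∈ Finset.range (K + 1), (k : ℝ) * ((c (2 ^ k) : ℝ) / 2 ^ k) := by
    rw [Finset.sum_range_succ']
    simp
  have h5 : ∑ k ∈ Finset.range (K + 1), (k : ℝ) * ((c (2 ^ k) : ℝ) / 2 ^ k) ≤
      ∑ k ∈ Finset.range (2 ^ R), (k : ℝ) * ((c (2 ^ k) : ℝ) / 2 ^ k) := by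
    refine Finset.sum_le_sum_of_subset_of_nonneg ?_ fun n _ _ => by positivity
    exact Finset.range_subset_range.2 hKR
  have h6 := Tw_bound a ha hpos hd c hc R
  have h7 : (2 : ℝ) ^ (R + 1) ≤ 4 * (K + 1) := by exact_mod_cast hRK
  have hl2 : 0 < Real.log 2 := Real.log_pos (by norm_num)
  have h8 : (K : ℝ) + 1 ≤ 3 * (Real.log x / Real.log 2) := by
    have q1 : (Nat.log 2 x : ℝ) ≤ Real.logb 2 x := by
      exact_mod_cast Real.natLog_le_logb x 2
    unfold Real.logb at q1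
    have q2 : 1 ≤ Real.log x / Real.log 2 := by
      rw [one_le_div hl2]
      exact Real.log_le_log (by norm_num) (by exact_mod_cast hx2)
    rw [hK]
    push_cast
    linarith
  have h9 : ∑ k ∈ Finset.range K, ((k + 1 : ℕ) : ℝ) * ((c (2 ^ (k + 1)) : ℝ) / 2 ^ (k + 1)) ≤
      88 * (Real.log x / Real.log 2) := by
    linarith
  have h10 := mul_le_mul_of_nonneg_left h9 (show (0 : ℝ) ≤ 2 / C by positivity)
  have e : 2 / C * (88 * (Real.log x / Real.log 2)) = 176 / (C * Real.log 2) * Real.log x := by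
    field_simp
    ring
  rw [e] at h10
  linarith

/-- **Theorem.** Let `a 0 < a 1 < ...` be positive integers all of whose sums over distinct nonempty
blocks of consecutive terms are different, let `A` be the set of these integers and `A(N)` the number
of elements up to `N`.  For every `m` the sum of `A(2^k) / 2^k` over `m ≤ k < 2m` is at most `22/3`.
In particular, for every `ω` tending to infinity, `A(N) ≤ ω(N) N / log N` for all `N` outside a set of
logarithmic density zero, and `A` has logarithmic density zero. -/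
theorem result (a : ℕ → ℕ) (ha : StrictMono a) (hpos : ∀ n, 0 < a n)
    (hd : ∀ i j k l : ℕ, i < j → k < l →
        ∑ m ∈ Finset.Ico i j, a m = ∑ m ∈ Finset.Ico k l, a m → i = k ∧ j = l) :
    (∀ m : ℕ, ∑ k ∈ Finset.Ico m (2 * m), (cnt (Set.range a) (2 ^ k) : ℝ) / 2 ^ k ≤ 22 / 3) ∧
    (∀ ω : ℕ → ℝ, Tendsto ω atTop atTop → Tendsto (fun x : ℕ =>
      hsum {N : ℕ | ω N * (N / Real.log N) < (cnt (Set.range a) N : ℝ)} x / Real.log x)
      atTop (𝓝 0)) ∧
    Tendsto (fun x : ℕ => hsum (Set.range a) x / Real.log x) atTop (𝓝 0) := by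
  classical
  choose c hc using exists_cut a ha
  have hcnt := cnt_eq a ha hpos c hc
  have hnn : ∀ (S : Set ℕ) (x : ℕ), 0 ≤ hsum S x := by
    intro S x
    unfold hsum
    exact Finset.sum_nonneg fun n _ => by positivity
  refine ⟨?_, ?_, ?_⟩
  · intro m
    simp only [hcnt]
    exact window a ha hpos hd c hc m
  · intro ω hω
    simp only [hcnt]
    refine tendsto_order.2 ⟨fun b hb => ?_, fun η hη => ?_⟩
    · filter_upwards [eventually_ge_atTop 1] with x hx
      have h1 : 0 ≤ Real.log x := Real.log_nonneg (by exact_mod_cast hx)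
      exact lt_of_lt_of_le hb (div_nonneg (hnn _ _) h1)
    · have hl2 : 0 < Real.log 2 := Real.log_pos (by norm_num)
      obtain ⟨C, hC⟩ : ∃ C : ℝ, C = 352 / (η * Real.log 2) := ⟨_, rfl⟩
      have hC0 : 0 < C := by rw [hC]; positivity
      have hCη : 176 / (C * Real.log 2) = η / 2 := by
        rw [hC]
        field_simp
        norm_num
      obtain ⟨n0, hn0⟩ := (tendsto_atTop.1 hω C).exists_forall_of_atTop
      have hlog : Tendsto (fun x : ℕ => Real.log x) atTop atTop :=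
        Real.tendsto_log_atTop.comp tendsto_natCast_atTop_atTop
      filter_upwards [eventually_ge_atTop 2, hlog.eventually_gt_atTop ((n0 + 2 : ℝ) / (η / 2))]
        with x hx hx3
      have hx0 : (1 : ℝ) < x := by exact_mod_cast (show 1 < x by omega)
      have hlx : 0 < Real.log x := Real.log_pos hx0
      have h1 := exc a ha hpos hd c hc C hC0 x hx
      rw [hCη] at h1
      have h2 : hsum {N : ℕ | ω N * (N / Real.log N) < (c N : ℝ)} x ≤
          hsum {n : ℕ | 2 ≤ n ∧ C * (n / Real.log n) < (c n : ℝ)} x + (n0 + 2) := by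
        have h3 : (Finset.Icc 1 x).filter (· ∈ {N : ℕ | ω N * (N / Real.log N) < (c N : ℝ)}) ⊆
            (Finset.Icc 1 x).filter (· ∈ {n : ℕ | 2 ≤ n ∧ C * (n / Real.log n) < (c n : ℝ)}) ∪
              Finset.Icc 1 (n0 + 2) := by
          intro n hn
          rw [Finset.mem_filter, Finset.mem_Icc] at hn
          obtain ⟨⟨hn1, hn2⟩, hn3⟩ := hn
          have hn3' : ω n * (n / Real.log n) < (c n : ℝ) := hn3
          rw [Finset.mem_union, Finset.mem_Icc]
          by_cases hle : n ≤ n0 + 2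
          · exact Or.inr ⟨hn1, hle⟩
          · left
            rw [Finset.mem_filter, Finset.mem_Icc]
            refine ⟨⟨hn1, hn2⟩, ?_⟩
            show 2 ≤ n ∧ C * (n / Real.log n) < (c n : ℝ)
            refine ⟨by omega, lt_of_le_of_lt ?_ hn3'⟩
            refine mul_le_mul_of_nonneg_right (hn0 n (by omega)) ?_
            exact div_nonneg (by positivity) (Real.log_nonneg (by exact_mod_cast hn1))
        unfold hsum
        calc _ ≤ ∑ n ∈ (Finset.Icc 1 x).filter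
                (· ∈ {n : ℕ | 2 ≤ n ∧ C * (n / Real.log n) < (c n : ℝ)}) ∪
              Finset.Icc 1 (n0 + 2), (1 : ℝ) / n :=
              Finset.sum_le_sum_of_subset_of_nonneg h3 fun n _ _ => by positivity
          _ ≤ ∑ n ∈ (Finset.Icc 1 x).filter
                (· ∈ {n : ℕ | 2 ≤ n ∧ C * (n / Real.log n) < (c n : ℝ)}), (1 : ℝ) / n +
              ∑ n ∈ Finset.Icc 1 (n0 + 2), (1 : ℝ) / n := by
              rw [← Finset.sum_union_inter]
              have : (0 : ℝ) ≤ ∑ n ∈ ((Finset.Icc 1 x).filter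
                (· ∈ {n : ℕ | 2 ≤ n ∧ C * (n / Real.log n) < (c n : ℝ)})) ∩
                  Finset.Icc 1 (n0 + 2), (1 : ℝ) / n :=
                Finset.sum_nonneg fun n _ => by positivity
              linarith
          _ ≤ _ := by
              have h4 : ∑ n ∈ Finset.Icc 1 (n0 + 2), (1 : ℝ) / n ≤
                  ∑ n ∈ Finset.Icc 1 (n0 + 2), (1 : ℝ) := by
                refine Finset.sum_le_sum fun n hn => ?_
                rw [Finset.mem_Icc] at hn
                have : (1 : ℝ) ≤ n := by exact_mod_cast hn.1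
                rw [div_le_one (by linarith)]
                exact this
              rw [Finset.sum_const, Nat.card_Icc, nsmul_eq_mul, mul_one,
                Nat.add_sub_cancel] at h4
              push_cast at h4
              refine add_le_add (le_of_eq ?_) h4
              congr
      rw [div_lt_iff₀ hlx]
      have h5 : (n0 + 2 : ℝ) < Real.log x * (η / 2) := by
        rw [div_lt_iff₀ (by positivity)] at hx3
        exact hx3
      linarith
  · have r3 : ∀ x : ℕ, hsum (Set.range a) x ≤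
        2 * (1 + 22 / 3 * ((Nat.log 2 (Nat.log 2 x + 2) : ℝ) + 1)) := by
      intro x
      have h := gen a ha hpos hd c hc (· ∈ Set.range a) 1 zero_le_one (by
        intro k
        rw [one_mul]
        have h1 : ((Finset.Ico (2 ^ k) (2 ^ (k + 1))).filter (· ∈ Set.range a)).card ≤
            c (2 ^ (k + 1)) := by
          rw [← hcnt]
          unfold cnt
          refine Finset.card_le_card ?_
          intro n hn
          rw [Finset.mem_filter, Finset.mem_Ico] at hn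
          rw [Finset.mem_filter, Finset.mem_Icc]
          have : 1 ≤ 2 ^ k := Nat.one_le_two_pow
          exact ⟨⟨by omega, by omega⟩, hn.2⟩
        exact_mod_cast h1) x
      rw [mul_one] at h
      exact h
    have h0 := lim_zero.const_mul 2
    rw [mul_zero] at h0
    refine squeeze_zero' ?_ ?_ h0
    · filter_upwards [eventually_ge_atTop 1] with x hx
      have h1 : 0 ≤ Real.log x := Real.log_nonneg (by exact_mod_cast hx)
      exact div_nonneg (hnn _ _) h1
    · filter_upwards [eventually_ge_atTop 1] with x hx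
      have h1 : 0 ≤ Real.log x := Real.log_nonneg (by exact_mod_cast hx)
      rw [← mul_div_assoc]
      exact div_le_div_of_nonneg_right (r3 x) h1

end Pool.Agent.Results.MP_28bef0_nt.LogarithmicDensity
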